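import Mathlib
import Pool.Agent.H561R2.VSpace

/-!
# Resolution depth is polynomially bounded in the variable space

If a formula in `n` variables has a configurational refutation of variable space at most `s`, then a
decision tree of depth `s + k * (k * s)` finds a falsified axiom, where `2 ^ k` exceeds the number of
sets of at most `s` literals.

A state is an interval `(lo, hi)` of times such that the configuration at time `lo` is known to be
satisfied and the one at time `hi` is known to be falsified. Let `A` be the set of all variable sets
occurring strictly between `lo` and `hi`. For every assignment `τ` of a set in `A` let `W τ` be the set of the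
variable sets that occur in the shortest interval which starts with the last time at which `τ` satisfies the
configuration and which sees at least half of `A`. A set `H` of `k` elements of `A` meets all `W τ`. Ask for all
variables in the members of `H`. Let `t` be the last time at which some member of `H` is the variable set of
a configuration that turns out to be satisfied, and let `t'` be the next time at which a member of `H`
occurs. Then less than half of `A` occurs between `t` and `t'`, and the configuration at time `t'` is
falsified.
-/

set_option autoImplicit false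

namespace Pool.Agent.L0h82.VS

open Finset Pool.Agent.H561R2.VS

variable {n : ℕ}

/-- the number of sets with at most `s` elements -/
lemma card_small {β : Type*} [Fintype β] [DecidableEq β] (s : ℕ) (A : Finset (Finset β))
    (hA : ∀ a ∈ A, a.card ≤ s) : A.card ≤ (Fintype.card β + 1) ^ s := by
  classical
  have h1 : A ⊆ (univ : Finset (Fin s → Option β)).image
      (fun f => univ.biUnion fun i => (f i).toFinset) := by
    intro a ha
    rw [mem_image]
    have hc := hA a ha
    have e := a.equivFin
    refine ⟨fun i => if h : (i : ℕ) < a.card then some (e.symm ⟨i, h⟩ : β) else none,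
      mem_univ _, ?_⟩
    ext x
    simp only [mem_biUnion, mem_univ, true_and, Option.mem_toFinset, Option.mem_def]
    constructor
    · rintro ⟨i, hi⟩
      split_ifs at hi with h
      · simp only [Option.some.injEq] at hi
        rw [← hi]
        exact (e.symm ⟨i, h⟩).2
    · intro hx
      have h2 := (e ⟨x, hx⟩).2
      refine ⟨⟨(e ⟨x, hx⟩ : ℕ), by omega⟩, ?_⟩
      simp
  calc A.card ≤ _ := card_le_card h1
    _ ≤ (univ : Finset (Fin s → Option β)).card := card_image_le
    _ = _ := by simp

/-- the assignment coded by a set of literals -/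
def asg (τ : Cl n) : Fin n → Bool := fun i => decide ((i, false) ∈ τ)

lemma asg_fcl (Q : Finset (Fin n)) (α : Fin n → Bool) (i : Fin n) (hi : i ∈ Q) :
    asg (fcl Q α) i = α i := by
  unfold asg fcl
  cases h : α i
  · simp only [decide_eq_false_iff_not, mem_image, Prod.mk.injEq, not_exists, not_and]
    rintro x _ rfl
    simp [h]
  · simp only [decide_eq_true_eq, mem_image, Prod.mk.injEq]
    exact ⟨i, hi, rfl, by simp [h]⟩

lemma fst_fcl (Q : Finset (Fin n)) (α : Fin n → Bool) : (fcl Q α).image Prod.fst = Q := by
  unfold fcl
  rw [image_image]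
  ext i
  simp

section

variable {F : Finset (Cl n)} {M : ℕ → Finset (Cl n)} {L s k : ℕ}

theorem main_lemma (hstep : ∀ i < L, Step F (M i) (M (i + 1)))
    (hs : ∀ i ≤ L, (vars (M i)).card ≤ s) (hk : (2 * n + 1) ^ s < 2 ^ k) :
    ∀ (j lo hi : ℕ) (Q : Finset (Fin n)) (α : Fin n → Bool), lo < hi → hi ≤ L →
      vars (M lo) ⊆ Q → vars (M hi) ⊆ Q → Alive α (M lo) → ¬ Alive α (M hi) →
      ((Ioo lo hi).image fun t => vars (M t)).card < 2 ^ j → Der F (j * (k * s)) (fcl Q α) := by
  classical
  intro j
  induction j with
  | zero =>
    intro lo hi Q α hlt hL h1 h2 h3 h4 hc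
    have hemp : Ioo lo hi = ∅ := by
      rw [pow_zero, Nat.lt_one_iff, card_eq_zero, image_eq_empty] at hc
      exact hc
    have hhi : hi = lo + 1 := by
      by_contra hne
      have : lo + 1 ∈ Ioo lo hi := by
        rw [mem_Ioo]
        omega
      rw [hemp] at this
      simp at this
    subst hhi
    obtain ⟨C, hC, hCM, hCs⟩ := step_dead (hstep lo (by omega)) h3 h4
    have := der_leaf (Q := Q) hC hCs (fun l hl => h2 (mem_vars hCM hl))
    exact this.mono (Nat.zero_le _)
  | succ j ih =>
    intro lo hi Q α hlt hL h1 h2 h3 h4 hc
    set A := (Ioo lo hi).image fun t => vars (M t) with hA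
    by_cases hsmall : A.card < 2 ^ j
    · exact (ih lo hi Q α hlt hL h1 h2 h3 h4 hsmall).mono
        (Nat.mul_le_mul_right _ (Nat.le_succ j))
    have hApos : 0 < A.card := lt_of_lt_of_le (by positivity) (not_lt.1 hsmall)
    have hc' : A.card < 2 * 2 ^ j := by rw [pow_succ] at hc; omega
    -- the last time at which `τ` satisfies the configuration
    let al : Cl n → Finset ℕ := fun τ => insert lo
      ((Ioo lo hi).filter fun t => vars (M t) = τ.image Prod.fst ∧ Alive (asg τ) (M t))
    have hne : ∀ τ, (al τ).Nonempty := fun τ => ⟨lo, mem_insert_self _ _⟩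
    let st : Cl n → ℕ := fun τ => (al τ).max' (hne τ)
    -- variable sets occurring in `(x, r]`
    let Ls : ℕ → ℕ → Finset (Finset (Fin n)) := fun x r => (Ioc x r).image fun t => vars (M t)
    have hLsA : ∀ x r, lo ≤ x → r < hi → Ls x r ⊆ A := by
      intro x r hx hr v hv
      rw [mem_image] at hv ⊢
      obtain ⟨t, ht, rfl⟩ := hv
      rw [mem_Ioc] at ht
      exact ⟨t, mem_Ioo.2 ⟨by omega, by omega⟩, rfl⟩
    have hstlo : ∀ τ, lo ≤ st τ := fun τ => le_max' _ _ (mem_insert_self _ _)
    -- the dense sets
    let W : Cl n → Finset (Finset (Fin n)) := fun τ =>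
      if h : ∃ r, r < hi ∧ A.card ≤ 2 * (Ls (st τ) r).card then Ls (st τ) (Nat.find h) else A
    have hW : ∀ τ, W τ ⊆ A ∧ A.card ≤ 2 * (W τ).card := by
      intro τ
      by_cases h : ∃ r, r < hi ∧ A.card ≤ 2 * (Ls (st τ) r).card
      · have e : W τ = Ls (st τ) (Nat.find h) := dif_pos h
        rw [e]
        exact ⟨hLsA _ _ (hstlo τ) (Nat.find_spec h).1, (Nat.find_spec h).2⟩
      · have e : W τ = A := dif_neg h
        rw [e]
        exact ⟨Subset.refl _, by omega⟩
    let T : Finset (Cl n) := univ.filter fun τ => τ.card ≤ s
    have hT : T.card < 2 ^ k := by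
      have := card_small s T (fun a ha => (mem_filter.1 ha).2)
      rw [Fintype.card_prod, Fintype.card_fin, Fintype.card_bool, mul_comm] at this
      omega
    obtain ⟨H, hHA, hHk, hH⟩ := exists_hitting A W k T hT (fun τ _ => by
      refine ⟨(hW τ).1, ?_, (hW τ).2⟩
      rw [← card_pos]
      have := (hW τ).2
      omega)
    set U := H.biUnion id with hU
    have hUc : U.card ≤ k * s := by
      calc U.card ≤ H.card * s := by
            apply card_biUnion_le_card_mul
            intro v hv
            have := hHA hv
            rw [hA, mem_image] at this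
            obtain ⟨t, ht, rfl⟩ := this
            rw [mem_Ioo] at ht
            exact hs t (by omega)
        _ ≤ k * s := Nat.mul_le_mul_right _ hHk
    have key : Der F (j * (k * s) + U.card) (fcl Q α) := by
      apply der_queries
      intro β hβ
      have hb3 : Alive β (M lo) := (alive_congr fun i hi => hβ i (h1 hi)).2 h3
      have hb4 : ¬ Alive β (M hi) := fun h => h4 ((alive_congr fun i hi => hβ i (h2 hi)).1 h)
      -- the last time at which a member of `H` is satisfied
      let S : Finset ℕ := insert lo ((Ioo lo hi).filter fun t => vars (M t) ∈ H ∧ Alive β (M t))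
      have hSne : S.Nonempty := ⟨lo, mem_insert_self _ _⟩
      set t0 := S.max' hSne with ht0
      have ht0S : t0 ∈ S := max'_mem _ _
      have ht0lo : lo ≤ t0 := le_max' _ _ (mem_insert_self _ _)
      have ht0hi : t0 < hi := by
        rcases mem_insert.1 ht0S with h | h
        · omega
        · exact (mem_Ioo.1 (mem_filter.1 h).1).2
      have ht0al : Alive β (M t0) := by
        rcases mem_insert.1 ht0S with h | h
        · rw [h]; exact hb3
        · exact (mem_filter.1 h).2.2
      have ht0Q : vars (M t0) ⊆ Q ∪ U := by
        rcases mem_insert.1 ht0S with h | h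
        · rw [h]; exact h1.trans subset_union_left
        · intro i hi
          exact mem_union_right _ (mem_biUnion.2 ⟨_, (mem_filter.1 h).2.1, hi⟩)
      have hlast : ∀ t, t0 < t → t < hi → vars (M t) ∈ H → ¬ Alive β (M t) := by
        intro t h5 h6 h7 h8
        have : t ∈ S := mem_insert_of_mem (mem_filter.2 ⟨mem_Ioo.2 ⟨by omega, h6⟩, h7, h8⟩)
        have := le_max' S t this
        omega
      -- local views
      have halm : ∀ h ∈ H, ∀ t, vars (M t) = h → (Alive (asg (fcl h β)) (M t) ↔ Alive β (M t)) := by
        intro h _ t ht
        apply alive_congr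
        intro i hi
        rw [ht] at hi
        exact asg_fcl h β i hi
      have hst : ∃ h ∈ H, st (fcl h β) = t0 := by
        have hle : ∀ h ∈ H, st (fcl h β) ≤ t0 := by
          intro h hh
          apply max'_le
          intro t ht
          rcases mem_insert.1 ht with h5 | h5
          · omega
          · obtain ⟨h6, h7, h8⟩ := mem_filter.1 h5
            rw [fst_fcl] at h7
            rw [halm h hh t h7] at h8
            exact le_max' _ _ (mem_insert_of_mem (mem_filter.2 ⟨h6, by rw [h7]; exact hh, h8⟩))
        rcases mem_insert.1 ht0S with h | h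
        · obtain ⟨h', hh', _⟩ := hH ∅ (mem_filter.2 ⟨mem_univ _, by simp⟩)
          refine ⟨h', hh', le_antisymm (hle h' hh') ?_⟩
          rw [h]
          exact hstlo _
        · obtain ⟨h6, h7, h8⟩ := mem_filter.1 h
          refine ⟨_, h7, le_antisymm (hle _ h7) ?_⟩
          apply le_max'
          refine mem_insert_of_mem (mem_filter.2 ⟨h6, ?_, ?_⟩)
          · rw [fst_fcl]
          · rw [halm _ h7 t0 rfl]
            exact h8
      obtain ⟨h0, hh0, hst0⟩ := hst
      have hh0s : fcl h0 β ∈ T := by
        refine mem_filter.2 ⟨mem_univ _, ?_⟩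
        have := hHA hh0
        rw [hA, mem_image] at this
        obtain ⟨t, ht, rfl⟩ := this
        rw [mem_Ioo] at ht
        unfold fcl
        exact card_image_le.trans (hs t (by omega))
      by_cases hex : ∃ r, r < hi ∧ A.card ≤ 2 * (Ls (st (fcl h0 β)) r).card
      · have e : W (fcl h0 β) = Ls (st (fcl h0 β)) (Nat.find hex) := dif_pos hex
        obtain ⟨h', hh', hh'W⟩ := hH _ hh0s
        rw [e, mem_image] at hh'W
        obtain ⟨t, ht, htv⟩ := hh'W
        rw [mem_Ioc] at ht
        have hta : t0 < t := by rw [← hst0]; exact ht.1
        have htb := ht.2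
        have hr1 := (Nat.find_spec hex).1
        -- the next time at which a member of `H` occurs
        have hex2 : ∃ t, t0 < t ∧ t < hi ∧ vars (M t) ∈ H :=
          ⟨t, hta, by omega, by rw [htv]; exact hh'⟩
        have hmin := Nat.find_spec hex2
        set t1 := Nat.find hex2 with ht1
        have ht1le : t1 ≤ t := Nat.find_min' hex2
          ⟨hta, by omega, by rw [htv]; exact hh'⟩
        apply ih t0 t1 (Q ∪ U) β hmin.1 (by omega) ht0Q ?_ ht0al
          (hlast t1 hmin.1 hmin.2.1 hmin.2.2)
        · -- fewer than half of `A` in between
          have hlt1 : t1 - 1 < Nat.find hex := by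
            have := hmin.1
            omega
          have hnot := Nat.find_min hex hlt1
          have hr2 : ¬ A.card ≤ 2 * (Ls (st (fcl h0 β)) (t1 - 1)).card := by
            intro h
            exact hnot ⟨by omega, h⟩
          rw [hst0] at hr2
          have e2 : ((Ioo t0 t1).image fun t => vars (M t)) = Ls t0 (t1 - 1) := by
            show _ = (Ioc t0 (t1 - 1)).image _
            congr 1
            ext x
            rw [mem_Ioo, mem_Ioc]
            have := hmin.1
            omega
          rw [e2]
          omega
        · intro i hi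
          exact mem_union_right _ (mem_biUnion.2 ⟨_, hmin.2.2, hi⟩)
      · apply ih t0 hi (Q ∪ U) β ht0hi hL ht0Q (h2.trans subset_union_left) ht0al hb4
        push Not at hex
        have h5 := hex (hi - 1) (by omega)
        rw [hst0] at h5
        have e2 : ((Ioo t0 hi).image fun t => vars (M t)) = Ls t0 (hi - 1) := by
          show _ = (Ioc t0 (hi - 1)).image _
          congr 1
          ext x
          rw [mem_Ioo, mem_Ioc]
          omega
        rw [e2]
        omega
    refine key.mono ?_
    rw [Nat.succ_mul]
    omega

/-- Depth against variable space. -/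
theorem depth_le (h0 : M 0 = ∅) (h1 : (∅ : Cl n) ∈ M L)
    (hstep : ∀ i < L, Step F (M i) (M (i + 1)))
    (hs : ∀ i ≤ L, (vars (M i)).card ≤ s) (hk : (2 * n + 1) ^ s < 2 ^ k) :
    (∅ : Cl n) ∈ lev F (s + k * (k * s)) := by
  classical
  have hL : 0 < L := by
    rcases Nat.eq_zero_or_pos L with h | h
    · rw [h, h0] at h1
      simp at h1
    · exact h
  have key : Der F (k * (k * s) + (vars (M L)).card) (fcl ∅ (fun _ : Fin n => false)) := by
    apply der_queries
    intro β _
    apply main_lemma hstep hs hk k 0 L _ β hL le_rfl
    · rw [h0]; simp [vars]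
    · exact subset_union_right
    · rw [h0]; intro C hC; simp at hC
    · intro h
      obtain ⟨l, hl, _⟩ := h ∅ h1
      simp at hl
    · have h2 := card_small s ((Ioo 0 L).image fun t => vars (M t)) (by
        intro a ha
        rw [mem_image] at ha
        obtain ⟨t, ht, rfl⟩ := ha
        rw [mem_Ioo] at ht
        exact hs t (by omega))
      rw [Fintype.card_fin] at h2
      refine lt_of_le_of_lt h2 (lt_of_le_of_lt ?_ hk)
      exact Nat.pow_le_pow_left (by omega) s
  obtain ⟨C', hC', hsub⟩ := key
  have e : fcl (∅ : Finset (Fin n)) (fun _ : Fin n => false) = ∅ := by simp [fcl]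
  rw [e] at hsub
  rw [Finset.subset_empty.1 hsub] at hC'
  refine lev_mono F ?_ hC'
  have := hs L le_rfl
  omega

end

end Pool.Agent.L0h82.VS
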